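import Pool.Agent.Results.MP_1116a9_gt.ScatteredSokolov

/-!
# The omega-modification of a compact space is a Sokolov space only if the space is scattered
-/

set_option autoImplicit false

open Set Topology Filter TopologicalSpace
open Pool.Agent.Results.MP_1116a9_gt.ScatteredSokolov

universe u

namespace Pool.Agent.Results.MP_1116a9_gt.SokolovIffScattered

/-- A space with an uncountable closed discrete subset is not a Sokolov space. -/
theorem not_sokolov {X : Type u} [TopologicalSpace X] {ι : Type*} [Uncountable ι] (p : ι → X)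
    (hp : Function.Injective p)
    (hN : ∀ z, ∃ U : Set X, IsOpen U ∧ z ∈ U ∧ ∀ i, p i ∈ U → p i = z) : ¬ IsSokolov X := by
  intro hX
  have : Infinite ι := inferInstance
  let F : (n : ℕ) → Set (Fin n → X) := fun n => {v | (∀ i, v i ∈ range p) ∧ Function.Injective v}
  have hF : ∀ n, IsClosed (F n) := by
    intro n
    rw [← isOpen_compl_iff, isOpen_iff_mem_nhds]
    intro v hv
    choose U hU hzU hpU using fun i => hN (v i)
    have h1 : Set.pi univ U ∈ 𝓝 v := (isOpen_set_pi finite_univ fun i _ => hU i).mem_nhds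
      fun i _ => hzU i
    filter_upwards [h1] with w hw hwF
    apply hv
    have : w = v := by
      funext i
      obtain ⟨j, hj⟩ := hwF.1 i
      have h2 := hpU i j (by rw [hj]; exact hw i (mem_univ i))
      rw [← hj]; exact h2
    rw [← this]; exact hwF
  obtain ⟨f, -, ⟨𝒩, h𝒩, hnet⟩, hfF⟩ := hX F hF
  have hpair : ∀ i j, i ≠ j → f (p i) ∈ range p ∧ f (p i) ≠ f (p j) := by
    intro i j hij
    have h1 : ![p i, p j] ∈ F 2 := by
      refine ⟨fun k => ?_, fun k l hkl => ?_⟩
      · fin_cases k
        · exact ⟨i, rfl⟩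
        · exact ⟨j, rfl⟩
      · fin_cases k <;> fin_cases l
        · rfl
        · exact absurd (hp hkl) hij
        · exact absurd (hp hkl).symm hij
        · rfl
    have h2 := hfF 2 _ h1
    exact ⟨h2.1 0, fun h => absurd (h2.2 (a₁ := 0) (a₂ := 1) h) (by decide)⟩
  have hmem : ∀ i, ∃ N ∈ 𝒩, (⟨f (p i), mem_range_self _⟩ : range f) ∈ N ∧
      ∀ j, (⟨f (p j), mem_range_self _⟩ : range f) ∈ N → i = j := by
    intro i
    obtain ⟨U, hU, hzU, hpU⟩ := hN (f (p i))
    obtain ⟨N, hN1, hN2, hN3⟩ := hnet (Subtype.val ⁻¹' U) (hU.preimage continuous_subtype_val)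
      ⟨f (p i), mem_range_self _⟩ hzU
    refine ⟨N, hN1, hN2, fun j hj => ?_⟩
    by_contra hij
    have h1 : f (p j) ∈ U := hN3 hj
    obtain ⟨⟨k, hk⟩, h3⟩ := hpair j i (Ne.symm hij)
    rw [← hk] at h1
    exact h3 (by rw [← hk]; exact hpU k h1)
  choose N hN1 hN2 hN3 using hmem
  have hinj : Function.Injective (fun i => (⟨N i, hN1 i⟩ : 𝒩)) := by
    intro i j hij
    have h1 : N i = N j := congrArg Subtype.val hij
    exact hN3 i j (by rw [h1]; exact hN2 j)
  have : Countable 𝒩 := h𝒩.to_subtype
  exact not_countable_iff.2 ‹Uncountable ι› hinj.countable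

section Tree

variable {K : Type u} [TopologicalSpace K] [CompactSpace K] [T2Space K]

/-- Nonempty perfect sets. -/
def NP (K : Type u) [TopologicalSpace K] : Type u := {C : Set K // Perfect C ∧ C.Nonempty}

theorem exists_split (C : NP K) : ∃ s : Bool → NP K, (∀ b, (s b).1 ⊆ C.1) ∧
    Disjoint (s true).1 (s false).1 := by
  obtain ⟨C₀, C₁, ⟨h1, h2, h3⟩, ⟨h4, h5, h6⟩, h7⟩ := C.2.1.splitting C.2.2
  refine ⟨fun b => cond b ⟨C₀, h1, h2⟩ ⟨C₁, h4, h5⟩, fun b => ?_, h7⟩
  cases b
  · exact h6
  · exact h3

/-- The two halves of a nonempty perfect set. -/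
noncomputable def sp (C : NP K) : Bool → NP K := Classical.choose (exists_split C)

theorem sp_subset (C : NP K) (b : Bool) : (sp C b).1 ⊆ C.1 :=
  (Classical.choose_spec (exists_split C)).1 b

theorem sp_disj (C : NP K) {z : K} {b b' : Bool} (h : z ∈ (sp C b).1) (h' : z ∈ (sp C b').1) :
    b = b' := by
  have h0 := (Classical.choose_spec (exists_split C)).2
  rw [Set.disjoint_left] at h0
  cases b <;> cases b'
  · rfl
  · exact absurd h (h0 h')
  · exact absurd h' (h0 h)
  · rfl

/-- The branches of the dyadic tree. -/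
noncomputable def T (R : NP K) (x : ℕ → Bool) : ℕ → NP K
  | 0 => R
  | n + 1 => sp (T R x n) (x n)

theorem T_congr (R : NP K) {x y : ℕ → Bool} {n : ℕ} (h : ∀ k < n, x k = y k) :
    T R x n = T R y n := by
  induction n with
  | zero => rfl
  | succ n ih =>
    simp only [T]
    rw [ih fun k hk => h k (by omega), h n (by omega)]

theorem T_anti (R : NP K) (x : ℕ → Bool) (n : ℕ) : (T R x (n + 1)).1 ⊆ (T R x n).1 :=
  sp_subset _ _

theorem exists_branch_point (R : NP K) (x : ℕ → Bool) : ∃ z, ∀ n, z ∈ (T R x n).1 := by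
  obtain ⟨z, hz⟩ := IsCompact.nonempty_iInter_of_sequence_nonempty_isCompact_isClosed
    (fun n => (T R x n).1) (fun n => T_anti R x n) (fun n => (T R x n).2.2)
    (T R x 0).2.1.closed.isCompact (fun n => (T R x n).2.1.closed)
  exact ⟨z, fun n => mem_iInter.1 hz n⟩

open Classical in
/-- The branch that follows the point `z` as long as possible, with its sets. -/
noncomputable def greedyAux (R : NP K) (z : K) : ℕ → NP K
  | 0 => R
  | n + 1 => sp (greedyAux R z n) (decide (z ∈ (sp (greedyAux R z n) true).1))

open Classical in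
noncomputable def greedy (R : NP K) (z : K) (n : ℕ) : Bool :=
  decide (z ∈ (sp (greedyAux R z n) true).1)

theorem T_greedy (R : NP K) (z : K) (n : ℕ) : T R (greedy R z) n = greedyAux R z n := by
  induction n with
  | zero => rfl
  | succ n ih =>
    simp only [T, greedyAux]
    rw [ih]
    rfl

open Classical in
theorem greedy_ne (R : NP K) (z : K) (n : ℕ) (b : Bool) (hb : b ≠ greedy R z n) :
    z ∉ (sp (T R (greedy R z) n) b).1 := by
  rw [T_greedy]
  intro h
  have hg : greedy R z n = decide (z ∈ (sp (greedyAux R z n) true).1) := rfl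
  cases b
  · have h1 : greedy R z n = true := by
      cases hgz : greedy R z n
      · exact absurd hgz.symm hb
      · rfl
    rw [hg, decide_eq_true_iff] at h1
    have := sp_disj _ h h1
    exact absurd this (by decide)
  · apply hb
    rw [hg, eq_comm, decide_eq_true_iff]
    exact h

theorem exists_nhd (R : NP K) (p : (ℕ → Bool) → K) (hp : ∀ x n, p x ∈ (T R x n).1) (z : K) :
    ∃ U : Set (OmegaMod K), IsOpen U ∧ z ∈ U ∧ ∀ x, p x ∈ U → p x = z := by
  classical
  set g := greedy R z with hg
  -- first a `G_δ` neighbourhood that contains no `p x` with `x ≠ g`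
  let E : ℕ → Set K := fun n => ⋂ b ∈ {b : Bool | b ≠ g n}, (sp (T R g n) b).1ᶜ
  have hE : ∀ n, IsOpen (E n) := fun n =>
    (toFinite {b : Bool | b ≠ g n}).isOpen_biInter fun b _ =>
      (sp (T R g n) b).2.1.closed.isOpen_compl
  have hzE : ∀ n, z ∈ E n := fun n => mem_iInter₂.2 fun b hb => greedy_ne R z n b hb
  have hpE : ∀ x, (∀ n, p x ∈ E n) → x = g := by
    intro x hx
    by_contra hne
    have hex : ∃ n, x n ≠ g n := by
      by_contra hcon
      push Not at hcon
      exact hne (funext hcon)
    have hlt : ∀ k < Nat.find hex, x k = g k := fun k hk => by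
      by_contra h
      exact Nat.find_min hex hk h
    have h1 := hp x (Nat.find hex + 1)
    have h2 : T R x (Nat.find hex + 1) = sp (T R g (Nat.find hex)) (x (Nat.find hex)) := by
      rw [← T_congr R hlt]
      rfl
    rw [h2] at h1
    exact mem_iInter₂.1 (hx (Nat.find hex)) _ (Nat.find_spec hex) h1
  let W : Set K := if p g = z then univ else {p g}ᶜ
  have hW : IsOpen W := by
    by_cases h : p g = z
    · simp only [W, h, if_true]; exact isOpen_univ
    · simp only [W, h, if_false]; exact isOpen_compl_singleton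
  refine ⟨((⋂ n, E n) ∩ W : Set K), ?_, ⟨mem_iInter.2 hzE, ?_⟩, ?_⟩
  · refine isOpen_generateFrom_of_mem ?_
    exact (IsGδ.iInter fun n => (hE n).isGδ).inter hW.isGδ
  · by_cases h : p g = z
    · simp only [W, h, if_true]; exact mem_univ _
    · simp only [W, h, if_false]
      exact fun h' => h (mem_singleton_iff.1 h').symm
  · rintro x ⟨hx1, hx2⟩
    have hxg := hpE x fun n => mem_iInter.1 hx1 n
    subst hxg
    by_contra h
    simp only [W, h, if_false] at hx2
    exact hx2 rfl

/-- Every closed discrete subset is countable. -/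
def CountableExtent (X : Type u) [TopologicalSpace X] : Prop :=
  ∀ D : Set X, IsClosed D → IsDiscrete D → D.Countable

theorem countableExtent_of_sokolov {X : Type u} [TopologicalSpace X] (hX : IsSokolov X) :
    CountableExtent X := by
  intro D hD hdisc
  by_contra hc
  have h1 : Uncountable D := by
    rw [← not_countable_iff]
    exact fun h => hc (Set.countable_coe_iff.1 h)
  refine not_sokolov (fun d : D => (d : X)) Subtype.val_injective (fun z => ?_) hX
  by_cases hz : z ∈ D
  · have := hdisc.to_subtype
    obtain ⟨U, hU, hUD⟩ := isOpen_induced_iff.1 (isOpen_discrete ({⟨z, hz⟩} : Set D))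
    refine ⟨U, hU, ?_, fun d hd => ?_⟩
    · have : (⟨z, hz⟩ : D) ∈ Subtype.val ⁻¹' U := by rw [hUD]; rfl
      exact this
    · have : d ∈ Subtype.val ⁻¹' U := hd
      rw [hUD] at this
      rw [mem_singleton_iff.1 this]
  · exact ⟨Dᶜ, hD.isOpen_compl, hz, fun d hd => absurd d.2 hd⟩

theorem not_countableExtent (h : ¬ Scattered K) : ¬ CountableExtent (OmegaMod K) := by
  intro hcount
  unfold Scattered at h
  push Not at h
  obtain ⟨S, hSne, hS⟩ := h
  have hpre : Preperfect S := by
    rw [preperfect_iff_nhds]
    intro x hx U hU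
    obtain ⟨V, hVU, hV, hxV⟩ := mem_nhds_iff.1 hU
    by_contra hcon
    push Not at hcon
    apply hS x hx V hV
    ext y
    constructor
    · rintro ⟨hy1, hy2⟩
      exact hcon y ⟨hVU hy1, hy2⟩
    · rintro rfl
      exact ⟨hxV, hx⟩
  let R : NP K := ⟨closure S, hpre.perfect_closure, hSne.closure⟩
  choose p hp using exists_branch_point R
  have hinj : Function.Injective p := by
    intro x y hxy
    by_contra hne
    have hex : ∃ n, x n ≠ y n := by
      by_contra hcon
      push Not at hcon
      exact hne (funext hcon)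
    classical
    have hlt : ∀ k < Nat.find hex, x k = y k := fun k hk => by
      by_contra h
      exact Nat.find_min hex hk h
    have h1 : p x ∈ (sp (T R x (Nat.find hex)) (x (Nat.find hex))).1 := hp x (Nat.find hex + 1)
    have h2 : p y ∈ (sp (T R y (Nat.find hex)) (y (Nat.find hex))).1 := hp y (Nat.find hex + 1)
    rw [← T_congr R hlt, ← hxy] at h2
    exact Nat.find_spec hex (sp_disj _ h1 h2)
  have hunc : Uncountable (ℕ → Bool) := by
    rw [← Cardinal.aleph0_lt_mk_iff]
    simpa using Cardinal.cantor Cardinal.aleph0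
  let D : Set (OmegaMod K) := range p
  have hnb := exists_nhd R p hp
  have hDc : IsClosed D := by
    rw [← isOpen_compl_iff, isOpen_iff_mem_nhds]
    intro z hz
    obtain ⟨U, hU, hzU, hpU⟩ := hnb z
    refine mem_of_superset (hU.mem_nhds hzU) ?_
    rintro w hw ⟨x, rfl⟩
    exact hz ⟨x, hpU x hw⟩
  have hDd : IsDiscrete D := by
    refine ⟨discreteTopology_subtype_iff'.2 fun z hz => ?_⟩
    obtain ⟨U, hU, hzU, hpU⟩ := hnb z
    refine ⟨U, hU, ?_⟩
    ext w
    constructor
    · rintro ⟨hw1, ⟨x, rfl⟩⟩
      exact hpU x hw1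
    · rintro rfl
      exact ⟨hzU, hz⟩
  have h3 : D.Countable := hcount D hDc hDd
  have h4 : Countable D := h3.to_subtype
  have h5 : Function.Injective (fun x => (⟨p x, mem_range_self x⟩ : D)) := fun x y hxy =>
    hinj (congrArg Subtype.val hxy)
  exact not_countable_iff.2 hunc h5.countable

end Tree

/-- **The omega-modification of a compact Hausdorff space `K` is a Sokolov space if and only if `K`
is scattered**, and if and only if it has no uncountable closed discrete subset. (Question 1 is
the case of finite dispersion index of the implication from scattered to Sokolov.) -/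
theorem result (K : Type u) [TopologicalSpace K] [CompactSpace K] [T2Space K] :
    (IsSokolov (OmegaMod K) ↔ Scattered K) ∧ (CountableExtent (OmegaMod K) ↔ Scattered K) :=
  ⟨⟨fun h => by_contra fun hK => not_countableExtent hK (countableExtent_of_sokolov h),
    fun h => ScatteredSokolov.result K h⟩,
    ⟨fun h => by_contra fun hK => not_countableExtent hK h,
    fun h => countableExtent_of_sokolov (ScatteredSokolov.result K h)⟩⟩

end Pool.Agent.Results.MP_1116a9_gt.SokolovIffScattered
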